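import Pool.Agent.helper59.BR.SpecH

set_option autoImplicit false

namespace Pool.Agent.BR

open Pool.Agent.helper58.DC Pool.Agent.DI Pool.Agent.GR Pool.Agent.OB Pool.Agent.DR Pool.Agent.FI Pool.Agent.FI3 Pool.Agent.FI4 Pool.Agent.LE

theorem PS0_int {p : ℕ} {M : Ideal (integralClosure ℤ ℂ)} (hS : Setup p M) (n : ℤ) : IntAt M (n : ℂ) :=
  IntAt.of_isIntegral hS (by
    have := isIntegral_algebraMap (R := ℤ) (A := ℂ) (x := n)
    simpa using this)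

theorem PS0_val {p : ℕ} (hp : p.Prime) {n : ℕ} (hn : n ≠ 0) :
    ∃ c : ℕ, ¬ p ∣ c ∧ n = p ^ padicValNat p n * c := by
  have : Fact p.Prime := ⟨hp⟩
  obtain ⟨a, c, hc, hn'⟩ := Nat.exists_eq_pow_mul_and_not_dvd hn p hp.ne_one
  refine ⟨c, hc, ?_⟩
  have hc0 : c ≠ 0 := by
    rintro rfl
    exact hc (dvd_zero p)
  have h1 : padicValNat p n = a := by
    rw [hn', padicValNat.mul (pow_ne_zero a hp.ne_zero) hc0, padicValNat.prime_pow,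
      padicValNat.eq_zero_of_not_dvd hc, add_zero]
  rw [h1]
  exact hn'

/-- the numbers -/
theorem PS0_num {p : ℕ} {M : Ideal (integralClosure ℤ ℂ)} (hS : Setup p M) {nG nD d : ℕ} (hG : nG ≠ 0) (hD : nD ≠ 0) (hd : d ≠ 0)
    (hint : IntAt M ((nD : ℂ) * d / nG)) :
    ∃ k e' g' : ℕ, padicValNat p nG + k = padicValNat p nD + padicValNat p d ∧ ¬ p ∣ e' ∧ ¬ p ∣ g' ∧
      (nD : ℂ) * d * g' = (p : ℂ) ^ k * e' * nG := by
  have : Fact p.Prime := ⟨hS.pr⟩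
  obtain ⟨g', hg', hGe⟩ := PS0_val hS.pr hG
  obtain ⟨e', he', hDe⟩ := PS0_val hS.pr (mul_ne_zero hD hd)
  rw [padicValNat.mul hD hd] at hDe
  set a := padicValNat p nG with ha
  set b := padicValNat p nD + padicValNat p d with hb
  have hGc : (nG : ℂ) = (p : ℂ) ^ a * g' := by exact_mod_cast hGe
  have hDc : (nD : ℂ) * d = (p : ℂ) ^ b * e' := by exact_mod_cast hDe
  have hG0 : (nG : ℂ) ≠ 0 := by exact_mod_cast hG
  have hp0 : (p : ℂ) ≠ 0 := hS.p_ne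
  have hab : a ≤ b := by
    by_contra hcon
    push Not at hcon
    obtain ⟨c, hc⟩ : ∃ c, a = b + 1 + c := ⟨a - (b + 1), by omega⟩
    apply he'
    rw [← InM.natCast hS]
    have h1 : ((nD : ℂ) * d / nG) * ((p : ℂ) ^ c * g') * p = e' := by
      have h2 : ((nD : ℂ) * d / nG) * nG = (p : ℂ) ^ b * e' := by
        rw [div_mul_cancel₀ _ hG0, hDc]
      rw [hGc, hc] at h2
      have h3 : (p : ℂ) ^ b ≠ 0 := pow_ne_zero b hp0
      apply mul_left_cancel₀ h3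
      rw [← h2, hGc, hc]
      ring
    rw [← h1]
    exact InM.mul_left hS (IntAt.mul hS hint (IntAt.mul hS (IntAt.pow hS (IntAt.natCast hS p) c) (IntAt.natCast hS g'))) (InM.prime_mem hS)
  refine ⟨b - a, e', g', by omega, he', hg', ?_⟩
  obtain ⟨c, hc⟩ : ∃ c, b = a + c := ⟨b - a, by omega⟩
  rw [hDc, hGc, hc, add_tsub_cancel_left]
  ring

theorem PS0 (hHHT : HHT_stmt) (hHHB : HHB_stmt) (hHVP : HVP_stmt) (hPPL : PPL_stmt) (hHAI : HAI_stmt) (hB2 : B2_stmt) : PS0_stmt := by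
  classical
  intro p M hS hp2 G _ _ D x θ χ lo m hm
  obtain ⟨ψ₀, hψ₀, hPR, hnin⟩ := hHHT p M hS hp2 G D x θ χ lo m hm
  refine ⟨ψ₀, hψ₀, hPR, ?_⟩
  intro h hh ψ hψ
  -- the integer N
  obtain ⟨P, hP⟩ := hPPL p M hS G D x θ χ lo 1 D.one_mem ψ hψ.1 ψ₀ hψ₀.1 1 one_pos (one_pow 1) 1 IsPrimitiveRoot.one
  have hN : (Nat.card D : ℂ) * PP p M θ ψ ψ₀ 1 = ((P.eval 1 : ℤ) : ℂ) := by
    have h1 := hP 1 (fun h => hS.pr.one_lt.ne' (Nat.dvd_one.mp h))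
    rw [one_pow, one_pow] at h1
    rw [h1]
    have h2 := Polynomial.aeval_algebraMap_apply_eq_algebraMap_eval (A := ℂ) (1 : ℤ) P
    rw [map_one] at h2
    rw [h2]
    simp
  refine ⟨P.eval 1, hN, ?_⟩
  -- the degree
  obtain ⟨⟨d, hd0, hd, _⟩, _⟩ := (hB2 G (⊤ : Subgroup G)).2 ψ hψ.1
  have hd0' : d ≠ 0 := hd0.ne'
  have hai : IntAt M ((Nat.card D : ℂ) * d / Nat.card G) := by
    have h1 := hHAI p M hS G D x θ χ lo ⊥ bot_le ψ (by rw [Pool.Agent.FI4B.BST_cz_bot]; exact hψ)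
    rw [Pool.Agent.FI4B.BST_cz_bot, Subgroup.card_top, hd] at h1
    exact h1
  have hG0 : Nat.card G ≠ 0 := Nat.card_pos.ne'
  have hD0 : Nat.card D ≠ 0 := Nat.card_pos.ne'
  obtain ⟨k, e', g', hk, he', hg', heq⟩ := PS0_num hS hG0 hD0 hd0' hai
  have hkh : k ≤ h := by
    have h1 := hHHB p M hS G D x θ χ lo ψ₀ hψ₀ hnin ψ hψ d k hd hd0' hk
    have h2 : p ^ k < p ^ (h + 1) := lt_of_le_of_lt h1 hh
    have h3 := (Nat.pow_lt_pow_iff_right hS.pr.one_lt).mp h2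
    omega
  obtain ⟨hw1, hw2⟩ := hHVP p M hS G D x θ χ lo 1 D.one_mem ψ₀ hψ₀ hnin ψ hψ
  rw [hd] at hw1 hw2
  intro hdvd
  have hdvd' : ((p : ℤ) ^ (k + 1)) ∣ P.eval 1 := dvd_trans (pow_dvd_pow _ (by omega)) hdvd
  obtain ⟨N', hN'⟩ := hdvd'
  obtain ⟨w, hw⟩ : ∃ w : ℂ, w = (Nat.card G : ℂ) * PP p M θ ψ ψ₀ 1 / (d : ℂ) := ⟨_, rfl⟩
  rw [← hw] at hw1 hw2
  have hdc : (d : ℂ) ≠ 0 := by exact_mod_cast hd0'
  have hw3 : (Nat.card G : ℂ) * PP p M θ ψ ψ₀ 1 = w * d := by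
    rw [hw, div_mul_cancel₀ _ hdc]
  have h1 : ((P.eval 1 : ℤ) : ℂ) * g' = (p : ℂ) ^ k * e' * w := by
    apply mul_right_cancel₀ hdc
    calc ((P.eval 1 : ℤ) : ℂ) * g' * d = ((Nat.card D : ℂ) * d * g') * PP p M θ ψ ψ₀ 1 := by rw [← hN]; ring
      _ = ((p : ℂ) ^ k * e' * Nat.card G) * PP p M θ ψ ψ₀ 1 := by rw [heq]
      _ = (p : ℂ) ^ k * e' * (Nat.card G * PP p M θ ψ ψ₀ 1) := by ring
      _ = (p : ℂ) ^ k * e' * w * d := by rw [hw3]; ring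
  have h2 : (p : ℂ) * N' * g' = e' * w := by
    apply mul_left_cancel₀ (pow_ne_zero k hS.p_ne)
    rw [hN'] at h1
    push_cast at h1
    calc (p : ℂ) ^ k * ((p : ℂ) * N' * g') = (p : ℂ) ^ (k + 1) * N' * g' := by ring
      _ = (p : ℂ) ^ k * e' * w := h1
      _ = (p : ℂ) ^ k * (e' * w) := by ring
  have h3 : InM M ((e' : ℂ) * w) := by
    rw [← h2, mul_assoc]
    exact InM.mul_right hS (InM.prime_mem hS) (IntAt.mul hS (PS0_int hS N') (IntAt.natCast hS g'))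
  rcases InM.or hS (IntAt.natCast hS e') hw1 h3 with h4 | h4
  · exact he' ((InM.natCast hS e').mp h4)
  · exact hw2 h4

end Pool.Agent.BR
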